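import Mathlib

/-!
Integer-valued polynomials on algebras: auxiliary results.
-/

open Polynomial

namespace Pool.Agent.Helper2.IntVal

section conductor

variable {D K : Type*} [CommRing D] [Field K] [Algebra D K]

/-- The conductor `{d : d f ∈ D[X]}`. -/
def cond (D : Type*) {K : Type*} [CommRing D] [Field K] [Algebra D K] (f : K[X]) : Ideal D where
  carrier := {d | C (algebraMap D K d) * f ∈ lifts (algebraMap D K)}
  zero_mem' := by simp
  add_mem' := by
    intro a b ha hb
    simp only [Set.mem_ofPred_eq, map_add, add_mul] at *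
    exact Subsemiring.add_mem _ ha hb
  smul_mem' := by
    intro c d hd
    simp only [Set.mem_ofPred_eq, smul_eq_mul, map_mul, mul_assoc] at *
    exact Subsemiring.mul_mem _ (C_mem_lifts _ c) hd

theorem mem_cond {f : K[X]} {d : D} :
    d ∈ cond D f ↔ C (algebraMap D K d) * f ∈ lifts (algebraMap D K) := Iff.rfl

theorem mem_cond_pow {f : K[X]} {i : ℕ} {d : D} (hd : d ∈ cond D f ^ i) :
    C (algebraMap D K d) * f ^ i ∈ lifts (algebraMap D K) := by
  induction hd using Submodule.pow_induction_on_left' with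
  | algebraMap r => simpa using C_mem_lifts (algebraMap D K) r
  | add x y i hx hy h1 h2 =>
    rw [map_add, map_add, add_mul]
    exact Subsemiring.add_mem _ h1 h2
  | mem_mul m hm i x hx h =>
    rw [map_mul, map_mul, pow_succ]
    have : C (algebraMap D K m) * C (algebraMap D K x) * (f ^ i * f) =
      (C (algebraMap D K m) * f) * (C (algebraMap D K x) * f ^ i) := by ring
    rw [this]
    exact Subsemiring.mul_mem _ hm h

/-- If `f` is integer-valued on `D` then Vandermonde determinants are in the conductor. -/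
theorem vandermonde_mem {f : K[X]} (hf : ∀ x : D, ∃ y : D, f.eval (algebraMap D K x) = algebraMap D K y)
    (x : Fin (f.natDegree + 1) → D) : (Matrix.vandermonde x).det ∈ cond D f := by
  choose y hy using hf
  let v : Fin (f.natDegree + 1) → K := fun k => f.coeff k
  have h1 : ((algebraMap D K).mapMatrix (Matrix.vandermonde x)).mulVec v =
      fun i => algebraMap D K (y (x i)) := by
    funext i
    rw [← hy, eval_eq_sum_range, Matrix.mulVec, dotProduct, Finset.sum_range]
    refine Finset.sum_congr rfl (fun k _ => ?_)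
    simp only [RingHom.mapMatrix_apply, Matrix.map_apply, Matrix.vandermonde_apply, map_pow, v]
    ring
  have h2 : ((algebraMap D K).mapMatrix (Matrix.adjugate (Matrix.vandermonde x))).mulVec
      (((algebraMap D K).mapMatrix (Matrix.vandermonde x)).mulVec v) =
      (algebraMap D K (Matrix.vandermonde x).det) • v := by
    rw [Matrix.mulVec_mulVec, ← map_mul, Matrix.adjugate_mul]
    have e : (algebraMap D K).mapMatrix ((Matrix.vandermonde x).det •
        (1 : Matrix (Fin (f.natDegree + 1)) (Fin (f.natDegree + 1)) D)) =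
        (algebraMap D K (Matrix.vandermonde x).det) • 1 := by
      ext i j
      by_cases h : i = j
      · subst h; simp
      · simp [h]
    rw [e, Matrix.smul_mulVec, Matrix.one_mulVec]
  rw [mem_cond, lifts_iff_coeff_lifts]
  intro n
  rw [coeff_C_mul]
  by_cases hn : n < f.natDegree + 1
  · have h3 := congrFun h2 ⟨n, hn⟩
    rw [h1] at h3
    simp only [Pi.smul_apply, smul_eq_mul, v] at h3
    rw [← h3]
    refine ⟨∑ i, (Matrix.adjugate (Matrix.vandermonde x)) ⟨n, hn⟩ i * y (x i), ?_⟩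
    simp [Matrix.mulVec, dotProduct]
  · rw [coeff_eq_zero_of_natDegree_lt (by omega), mul_zero]
    exact ⟨0, map_zero _⟩

theorem card_quotient_le {f : K[X]}
    (hf : ∀ x : D, ∃ y : D, f.eval (algebraMap D K x) = algebraMap D K y)
    (P : Ideal D) [hP : P.IsPrime] (hPf : cond D f ≤ P) :
    Finite (D ⧸ P) ∧ Nat.card (D ⧸ P) ≤ f.natDegree := by
  by_contra hcon
  have key : ∃ g : Fin (f.natDegree + 1) → D ⧸ P, Function.Injective g := by
    by_cases hfin : Finite (D ⧸ P)
    · have : ¬ Nat.card (D ⧸ P) ≤ f.natDegree := fun h => hcon ⟨hfin, h⟩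
      have hF := Fintype.ofFinite (D ⧸ P)
      rw [Nat.card_eq_fintype_card] at this
      have h2 : Nonempty (Fin (f.natDegree + 1) ↪ D ⧸ P) := by
        rw [Function.Embedding.nonempty_iff_card_le]
        simp; omega
      exact ⟨h2.some, h2.some.injective⟩
    · rw [not_finite_iff_infinite] at hfin
      exact ⟨_, (Infinite.natEmbedding (D ⧸ P)).injective.comp Fin.val_injective⟩
  obtain ⟨g, hg⟩ := key
  choose x hx using fun i => Ideal.Quotient.mk_surjective (g i)
  have h1 := hPf (vandermonde_mem hf x)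
  rw [Matrix.det_vandermonde] at h1
  rw [hP.prod_mem_iff] at h1
  obtain ⟨i, -, h1⟩ := h1
  rw [hP.prod_mem_iff] at h1
  obtain ⟨j, hj, h1⟩ := h1
  rw [← Ideal.Quotient.mk_eq_mk_iff_sub_mem, hx, hx] at h1
  have := hg h1
  rw [Finset.mem_Ioi] at hj
  exact absurd this hj.ne'

/-- The exponent used for the nilpotency of the radical of the conductor. -/
def expo (n : ℕ) : ℕ := ∑ i : Fin (n + 1), ∑ _j ∈ Finset.Ioi i, (i : ℕ)

theorem pow_mem_cond {f : K[X]}
    (hf : ∀ x : D, ∃ y : D, f.eval (algebraMap D K x) = algebraMap D K y)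
    {y : D} (hy : y ∈ (cond D f).radical) : y ^ (expo f.natDegree) ∈ cond D f := by
  have h1 := vandermonde_mem hf (fun i => y ^ (i : ℕ))
  rw [Matrix.det_vandermonde, ← Ideal.Quotient.eq_zero_iff_mem, map_prod] at h1
  have hn : IsNilpotent (Ideal.Quotient.mk (cond D f) y) := by
    obtain ⟨k, hk⟩ := hy
    exact ⟨k, by rw [← map_pow, Ideal.Quotient.eq_zero_iff_mem]; exact hk⟩
  have h2 : ∀ i : Fin (f.natDegree + 1), ∀ j ∈ Finset.Ioi i,
      ∃ u : D ⧸ cond D f, IsUnit u ∧ Ideal.Quotient.mk (cond D f) (y ^ (j : ℕ) - y ^ (i : ℕ)) =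
        (Ideal.Quotient.mk (cond D f) y) ^ (i : ℕ) * u := by
    intro i j hj
    rw [Finset.mem_Ioi] at hj
    refine ⟨(Ideal.Quotient.mk (cond D f) y) ^ ((j : ℕ) - (i : ℕ)) - 1, ?_, ?_⟩
    · apply IsNilpotent.isUnit_sub_one
      exact hn.pow_of_pos (by have : (i : ℕ) < j := hj; omega)
    · have : (j : ℕ) = i + (j - i) := by
        have : (i : ℕ) < j := hj
        omega
      rw [mul_sub, ← pow_add, ← this, map_sub, map_pow, map_pow, mul_one]
  choose! u hu1 hu2 using h2
  have h3 : ∀ i : Fin (f.natDegree + 1),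
      Ideal.Quotient.mk (cond D f) (∏ j ∈ Finset.Ioi i, (y ^ (j : ℕ) - y ^ (i : ℕ))) =
      (Ideal.Quotient.mk (cond D f) y) ^ (∑ _j ∈ Finset.Ioi i, (i : ℕ)) *
        ∏ j ∈ Finset.Ioi i, u i j := by
    intro i
    rw [map_prod, Finset.prod_congr rfl (hu2 i), Finset.prod_mul_distrib, Finset.prod_pow_eq_pow_sum]
  rw [Finset.prod_congr rfl (fun i _ => h3 i), Finset.prod_mul_distrib,
    Finset.prod_pow_eq_pow_sum] at h1
  have h4 : IsUnit (∏ i, ∏ j ∈ Finset.Ioi i, u i j) := by
    rw [IsUnit.prod_univ_iff]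
    intro i
    rw [IsUnit.prod_iff]
    exact fun j hj => hu1 i j hj
  rw [h4.mul_left_eq_zero] at h1
  rw [← Ideal.Quotient.eq_zero_iff_mem, map_pow]
  exact h1

end conductor

section psi

/-- The polynomial `X^s (X^(s!) - 1)`, which kills every ring with at most `s` elements. -/
noncomputable def psi (R : Type*) [CommRing R] (s : ℕ) : R[X] :=
  X ^ s * (X ^ (s.factorial) - C 1)

theorem psi_monic (R : Type*) [CommRing R] (s : ℕ) : (psi R s).Monic :=
  (monic_X_pow s).mul (monic_X_pow_sub_C 1 (Nat.factorial_ne_zero s))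

theorem psi_map {R S : Type*} [CommRing R] [CommRing S] (φ : R →+* S) (s : ℕ) :
    (psi R s).map φ = psi S s := by
  simp [psi]

theorem psi_kill {R : Type*} [CommRing R] (s : ℕ) [Finite R] (hs : Nat.card R ≤ s) (b : R) :
    b ^ s * (b ^ (s.factorial) - 1) = 0 := by
  have hF := Fintype.ofFinite R
  rw [Nat.card_eq_fintype_card] at hs
  obtain ⟨i, j, hij, h⟩ := Fintype.exists_ne_map_eq_of_card_lt (fun i : Fin (s + 1) => b ^ (i : ℕ))
    (by simp; omega)
  wlog hlt : (i : ℕ) < j generalizing i j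
  · exact this j i hij.symm h.symm (by
      have : (i : ℕ) ≠ j := fun h => hij (Fin.ext h)
      omega)
  have h1 : b ^ (i : ℕ) * (b ^ ((j : ℕ) - i) - 1) = 0 := by
    rw [mul_sub, ← pow_add, mul_one]
    have : (i : ℕ) + (j - i) = j := by omega
    rw [this, show b ^ (j : ℕ) = b ^ (i : ℕ) from h.symm, sub_self]
  have h2 : (b ^ ((j : ℕ) - i) - 1) ∣ (b ^ (s.factorial) - 1) := by
    have hd : ((j : ℕ) - i) ∣ s.factorial := Nat.dvd_factorial (by omega) (by omega)
    obtain ⟨k, hk⟩ := hd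
    rw [hk, pow_mul]
    exact sub_one_dvd_pow_sub_one _ k
  have h3 : b ^ (i : ℕ) ∣ b ^ s := pow_dvd_pow b (by omega)
  obtain ⟨c, hc⟩ := h2
  obtain ⟨d, hd⟩ := h3
  rw [hc, hd]
  calc b ^ (i : ℕ) * d * ((b ^ ((j : ℕ) - i) - 1) * c)
      = b ^ (i : ℕ) * (b ^ ((j : ℕ) - i) - 1) * (d * c) := by ring
    _ = 0 := by rw [h1, zero_mul]

theorem coeff_psi_mod_mem {D : Type*} [CommRing D] (P : Ideal D) [P.IsPrime] {n r s : ℕ}
    (hfin : Finite (D ⧸ P)) (hcard : Nat.card (D ⧸ P) ≤ n) (hs : n ^ r ≤ s) {μ : D[X]}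
    (hμ : μ.Monic) (hdeg : μ.natDegree ≤ r) (i : ℕ) : ((psi D s) %ₘ μ).coeff i ∈ P := by
  let φ := Ideal.Quotient.mk P
  have hμ' : (μ.map φ).Monic := hμ.map φ
  have hb := (AdjoinRoot.powerBasis' hμ').basis.equivFun
  have hfin2 : Finite (AdjoinRoot (μ.map φ)) := Finite.of_equiv _ hb.toEquiv.symm
  have hpos : 0 < Nat.card (D ⧸ P) := Nat.card_pos
  have hc : Nat.card (AdjoinRoot (μ.map φ)) ≤ s := by
    rw [Nat.card_congr hb.toEquiv, Nat.card_fun]
    refine le_trans ?_ hs
    calc Nat.card (D ⧸ P) ^ Nat.card (Fin (AdjoinRoot.powerBasis' hμ').dim)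
        ≤ n ^ Nat.card (Fin (AdjoinRoot.powerBasis' hμ').dim) := Nat.pow_le_pow_left hcard _
      _ ≤ n ^ r := by
        apply Nat.pow_le_pow_right (by omega)
        rw [Nat.card_eq_fintype_card, Fintype.card_fin, AdjoinRoot.powerBasis'_dim]
        exact (natDegree_map_le).trans hdeg
  have h1 := psi_kill s hc (AdjoinRoot.root (μ.map φ))
  have h2 : AdjoinRoot.mk (μ.map φ) (psi (D ⧸ P) s) = 0 := by
    rw [psi, map_mul, map_pow, map_sub, map_pow, map_one, map_one, AdjoinRoot.mk_X]
    exact h1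
  rw [AdjoinRoot.mk_eq_zero] at h2
  have h3 : (psi (D ⧸ P) s) %ₘ (μ.map φ) = 0 := (modByMonic_eq_zero_iff_dvd hμ').mpr h2
  rw [← psi_map φ, ← map_modByMonic φ hμ] at h3
  have h4 := congrArg (fun p => p.coeff i) h3
  simp only [coeff_map, coeff_zero] at h4
  exact Ideal.Quotient.eq_zero_iff_mem.mp h4

theorem span_pow_le {D : Type*} [CommRing D] {I : Ideal D} {N : ℕ} (g : ℕ → D)
    (t : Finset ℕ) (ht : ∀ i ∈ t, g i ^ N ∈ I) :
    (Ideal.span (g '' t)) ^ (t.card * N + 1) ≤ I := by
  induction t using Finset.induction_on with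
  | empty => simp
  | insert a t ha ih =>
    rw [Finset.card_insert_of_notMem ha, Finset.coe_insert, Set.image_insert_eq,
      Ideal.span_insert]
    have : (t.card + 1) * N + 1 = N + (t.card * N + 1) := by ring
    rw [this]
    refine (Ideal.sup_pow_add_le_pow_sup_pow).trans ?_
    refine sup_le ?_ (ih (fun i hi => ht i (Finset.mem_insert_of_mem hi)))
    rw [Ideal.span_singleton_pow, Ideal.span_singleton_le_iff_mem]
    exact ht a (Finset.mem_insert_self a t)

theorem pow_mem_map {D : Type*} [CommRing D] {I : Ideal D} {N r : ℕ}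
    {ρ : D[X]} (hdeg : ∀ i, r ≤ i → ρ.coeff i = 0) (hρ : ∀ i, ρ.coeff i ^ N ∈ I) :
    ρ ^ (r * N + 1) ∈ Ideal.map C I := by
  have h1 : ρ ∈ Ideal.map C (Ideal.span (ρ.coeff '' (Finset.range r : Finset ℕ))) := by
    rw [Ideal.mem_map_C_iff]
    intro i
    by_cases hi : i < r
    · exact Ideal.subset_span ⟨i, by simpa using hi, rfl⟩
    · rw [hdeg i (by omega)]
      exact Ideal.zero_mem _
  have h2 := Ideal.pow_mem_pow h1 (r * N + 1)
  rw [← Ideal.map_pow] at h2
  have h3 := span_pow_le ρ.coeff (Finset.range r) (fun i _ => hρ i) (I := I) (N := N)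
  rw [Finset.card_range] at h3
  exact Ideal.map_mono h3 h2

theorem modByMonic_mem_map {D : Type*} [CommRing D] {I : Ideal D} {p μ : D[X]} (hμ : μ.Monic)
    (hp : p ∈ Ideal.map C I) : p %ₘ μ ∈ Ideal.map C I := by
  rw [Ideal.mem_map_C_iff] at *
  intro n
  have h1 : p.map (Ideal.Quotient.mk I) = 0 := by
    ext i
    simpa using Ideal.Quotient.eq_zero_iff_mem.mpr (hp i)
  have h2 : (p %ₘ μ).map (Ideal.Quotient.mk I) = 0 := by
    rw [map_modByMonic _ hμ, h1, zero_modByMonic]
  have h3 := congrArg (fun p => p.coeff n) h2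
  simp only [coeff_map, coeff_zero] at h3
  exact Ideal.Quotient.eq_zero_iff_mem.mp h3

end psi

section main

variable {D K A B : Type*} [CommRing D] [IsDomain D] [IsIntegrallyClosed D] [Field K]
  [Algebra D K] [IsFractionRing D K] [Ring A] [Algebra D A] [Ring B] [Nontrivial B]
  [Algebra D B] [Algebra K B] [IsScalarTower D K B] [Module.Finite K B]

theorem int_valued_on_base (ι : A →ₐ[D] B) {f : K[X]}
    (hf : ∀ a : A, IsIntegral D (aeval (ι a) f)) (x : D) :
    ∃ y : D, f.eval (algebraMap D K x) = algebraMap D K y := by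
  have h1 := hf (algebraMap D A x)
  rw [AlgHom.commutes, IsScalarTower.algebraMap_apply D K B, aeval_algebraMap_apply] at h1
  rw [isIntegral_algebraMap_iff (algebraMap K B).injective] at h1
  obtain ⟨y, hy⟩ := IsIntegrallyClosed.isIntegral_iff.mp h1
  exact ⟨y, by rw [hy]; rfl⟩

theorem main_aux (ι : A →ₐ[D] B) {f : K[X]}
    (hf : ∀ a : A, IsIntegral D (aeval (ι a) f)) :
    ∃ s k : ℕ, ∀ a : A, ∃ a' : A, aeval (aeval (ι a) f) ((psi D s) ^ (k + 1)) = ι a' := by
  have hfD := int_valued_on_base ι hf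
  let r := Module.finrank K B
  let N := expo f.natDegree
  refine ⟨f.natDegree ^ r, r * N * r + r - 1, ?_⟩
  intro a
  have hr : 0 < r := Module.finrank_pos
  let β := aeval (ι a) f
  obtain ⟨h, hh, hh0⟩ := hf a
  have hh0' : aeval β h = 0 := hh0
  have hdvd : minpoly K β ∣ h.map (algebraMap D K) := by
    apply minpoly.dvd
    rw [aeval_map_algebraMap]
    exact hh0'
  obtain ⟨μ, hμ⟩ := IsIntegrallyClosed.eq_map_mul_C_of_dvd K hh hdvd
  have hint : IsIntegral K β := IsIntegral.of_finite K β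
  have hmon := minpoly.monic hint
  rw [hmon.leadingCoeff, map_one, mul_one] at hμ
  have hμm : μ.Monic := monic_of_injective (IsFractionRing.injective D K) (by rw [hμ]; exact hmon)
  have hμ0 : aeval β μ = 0 := by
    rw [← aeval_map_algebraMap K, hμ]
    exact minpoly.aeval K β
  have hμd : μ.natDegree ≤ r := by
    have : (μ.map (algebraMap D K)).natDegree = μ.natDegree := hμm.natDegree_map _
    rw [← this, hμ]
    exact minpoly.natDegree_le β
  have hμ1 : μ ≠ 1 := by
    rintro rfl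
    simp at hμ0
  have hcoef : ∀ p : D[X], ∀ i, r ≤ i → (p %ₘ μ).coeff i = 0 := by
    intro p i hi
    apply coeff_eq_zero_of_natDegree_lt
    exact lt_of_lt_of_le (natDegree_modByMonic_lt p hμm hμ1) (hμd.trans hi)
  let ψ := psi D (f.natDegree ^ r)
  let ρ := ψ %ₘ μ
  have hρr : ∀ i, ρ.coeff i ∈ (cond D f).radical := by
    intro i
    rw [Ideal.radical_eq_sInf, Submodule.mem_sInf]
    rintro P ⟨hP1, hP2⟩
    obtain ⟨h1, h2⟩ := card_quotient_le hfD P hP1
    exact coeff_psi_mod_mem P h1 h2 (le_refl _) hμm hμd i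
  have hρ : ∀ i, ρ.coeff i ^ N ∈ cond D f := fun i => pow_mem_cond hfD (hρr i)
  have h1 : ρ ^ (r * N + 1) ∈ Ideal.map C (cond D f) := pow_mem_map (hcoef ψ) hρ
  have h2 : (ρ ^ (r * N + 1)) ^ r ∈ Ideal.map C ((cond D f) ^ r) := by
    rw [Ideal.map_pow]
    exact Ideal.pow_mem_pow h1 r
  let τ := ((ρ ^ (r * N + 1)) ^ r) %ₘ μ
  have hτ : ∀ i, τ.coeff i ∈ (cond D f) ^ r := Ideal.mem_map_C_iff.mp (modByMonic_mem_map hμm h2)
  have hexp : r * N * r + r - 1 + 1 = (r * N + 1) * r := by
    have : 0 < r * N * r + r := by omega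
    rw [Nat.sub_add_cancel this]
    ring
  have h3 : aeval β (ψ ^ (r * N * r + r - 1 + 1)) = aeval β τ := by
    rw [hexp, pow_mul, map_pow, map_pow,
      ← aeval_modByMonic_eq_self_of_root (p := ψ) hμ0,
      ← map_pow, ← map_pow, ← aeval_modByMonic_eq_self_of_root (p := ((ψ %ₘ μ) ^ _) ^ r) hμ0]
  have h4 : ∀ i ∈ Finset.range r, ∃ a' : A, τ.coeff i • β ^ i = ι a' := by
    intro i hi
    rw [Finset.mem_range] at hi
    have h5 : τ.coeff i ∈ (cond D f) ^ i := Ideal.pow_le_pow_right hi.le (hτ i)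
    obtain ⟨g, hg⟩ := (mem_lifts _).mp (mem_cond_pow h5)
    refine ⟨aeval a g, ?_⟩
    rw [← aeval_algHom_apply, ← aeval_map_algebraMap K, hg, map_mul, map_pow, aeval_C,
      ← IsScalarTower.algebraMap_apply, Algebra.smul_def]
  choose! a' ha' using h4
  refine ⟨∑ i ∈ Finset.range r, a' i, ?_⟩
  change aeval β (ψ ^ (r * N * r + r - 1 + 1)) = _
  rw [h3, map_sum, ← Finset.sum_congr rfl ha']
  rw [aeval_eq_sum_range' (n := r)]
  exact lt_of_lt_of_le (natDegree_modByMonic_lt _ hμm hμ1) hμd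

end main

section converse

variable {D K A B : Type*} [CommRing D] [Field K] [Algebra D K] [Ring A] [Algebra D A]
  [Module.Finite D A] [Ring B] [Algebra D B] [Algebra K B] [IsScalarTower D K B]

omit [IsScalarTower D K B] in
/-- Elements integral over a ring of polynomials with values in `ι A` take integral values. -/
theorem converse_aux [IsScalarTower D K B] (ι : A →ₐ[D] B) (a : A) (R : Subalgebra D K[X])
    (hR : ∀ g ∈ R, ∃ a' : A, aeval (ι a) g = ι a') {f : K[X]} (hf : IsIntegral R f) :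
    IsIntegral D (aeval (ι a) f) := by
  let φ : K[X] →ₐ[D] B := (aeval (ι a)).restrictScalars D
  let Q := K[X] ⧸ RingHom.ker φ
  let mk : K[X] →ₐ[D] Q := Ideal.Quotient.mkₐ D (RingHom.ker φ)
  let j : Q →ₐ[D] B := Ideal.kerLiftAlg φ
  have hj : Function.Injective j := Ideal.kerLiftAlg_injective φ
  have hjm : ∀ g, j (mk g) = aeval (ι a) g := fun g => Ideal.kerLiftAlg_mk φ g
  let S : Subalgebra D Q := R.map mk
  have hS : Algebra.IsIntegral D S := by
    refine ⟨?_⟩
    rintro ⟨_, g, hg, rfl⟩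
    rw [← isIntegral_algebraMap_iff (B := Q) Subtype.val_injective]
    change IsIntegral D (mk g)
    rw [← isIntegral_algHom_iff j hj, hjm]
    obtain ⟨a', ha'⟩ := hR g hg
    rw [ha']
    exact (IsIntegral.of_finite D a').map ι
  let θ : R →+* S :=
    { toFun := fun g => ⟨mk g, ⟨g, g.2, rfl⟩⟩
      map_one' := by ext; simp
      map_mul' := by intro x y; ext; simp
      map_zero' := by ext; simp
      map_add' := by intro x y; ext; simp }
  have h1 : IsIntegral S (mk f) := by
    refine IsIntegral.map_of_comp_eq θ (mk : K[X] →+* Q) ?_ hf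
    rfl
  have h2 : IsIntegral D (mk f) := isIntegral_trans (mk f) h1
  have h3 := h2.map j
  rwa [hjm] at h3

end converse

end Pool.Agent.Helper2.IntVal
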