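import Mathlib

/-!
The totally ordered groups `GG a` used in the counterexample.
-/

universe u

namespace Pool.Agent.Helper2.LG

/-- Carrier of the totally ordered group `GG a`. -/
@[ext] structure GG (a : ℝ) : Type u where
  p : ℤ
  q : ℤ
  b : ℝ
  c : ℝ
  r : ℤ
  f : ℤ →₀ ℝ

namespace GG

/-- The action on finitely supported functions. -/
noncomputable def act (a : ℝ) (p q r : ℤ) (f : ℤ →₀ ℝ) : ℤ →₀ ℝ where
  support := f.support.map (addRightEmbedding p)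
  toFun := fun i => Real.exp (a * (r - q * (i - p))) * f (i - p)
  mem_support_toFun := by
    intro i
    simp only [Finset.mem_map, Finsupp.mem_support_iff, addRightEmbedding_apply, ne_eq,
      mul_eq_zero, Real.exp_ne_zero, false_or]
    constructor
    · rintro ⟨j, hj, rfl⟩
      simpa using hj
    · intro h
      exact ⟨i - p, h, by ring⟩

theorem act_apply (a : ℝ) (p q r : ℤ) (f : ℤ →₀ ℝ) (i : ℤ) :
    act a p q r f i = Real.exp (a * (r - q * (i - p))) * f (i - p) := rfl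

theorem act_zero_fun (a : ℝ) (p q r : ℤ) : act a p q r 0 = 0 := by
  ext i; simp [act_apply]

theorem act_add_fun (a : ℝ) (p q r : ℤ) (f g : ℤ →₀ ℝ) :
    act a p q r (f + g) = act a p q r f + act a p q r g := by
  ext i; simp [act_apply, mul_add]

theorem act_neg_fun (a : ℝ) (p q r : ℤ) (f : ℤ →₀ ℝ) :
    act a p q r (-f) = - act a p q r f := by
  ext i; simp [act_apply]

theorem act_id (a : ℝ) (f : ℤ →₀ ℝ) : act a 0 0 0 f = f := by
  ext i; simp [act_apply]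

theorem act_act (a : ℝ) (p q r p' q' r' : ℤ) (f : ℤ →₀ ℝ) :
    act a p q r (act a p' q' r' f) = act a (p + p') (q + q') (r + r' - q * p') f := by
  ext i
  simp only [act_apply]
  rw [← mul_assoc, ← Real.exp_add]
  have h1 : i - p - p' = i - (p + p') := by ring
  rw [h1]
  congr 2
  push_cast
  ring

theorem act_lt (a : ℝ) (p q r : ℤ) {f g : ℤ →₀ ℝ} (h : toLex f < toLex g) :
    toLex (act a p q r f) < toLex (act a p q r g) := by
  rw [Finsupp.Lex.lt_iff] at *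
  obtain ⟨i, h1, h2⟩ := h
  refine ⟨i + p, ?_, ?_⟩
  · intro j hj
    have := h1 (j - p) (by linarith)
    simp only [ofLex_toLex] at this ⊢
    rw [act_apply, act_apply, this]
  · simp only [ofLex_toLex] at h2 ⊢
    rw [act_apply, act_apply]
    have : i + p - p = i := by ring
    rw [this]
    exact mul_lt_mul_of_pos_left h2 (Real.exp_pos _)

variable {a : ℝ}

noncomputable instance : Mul (GG.{u} a) :=
  ⟨fun g h => ⟨g.p + h.p, g.q + h.q, g.b + 2 ^ g.p * h.b, g.c + 2 ^ g.q * h.c,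
    g.r + h.r - g.q * h.p, g.f + act a g.p g.q g.r h.f⟩⟩

noncomputable instance : One (GG.{u} a) := ⟨⟨0, 0, 0, 0, 0, 0⟩⟩

noncomputable instance : Inv (GG.{u} a) :=
  ⟨fun g => ⟨-g.p, -g.q, - (2 ^ (-g.p) * g.b), - (2 ^ (-g.q) * g.c), - g.r - g.q * g.p,
    - act a (-g.p) (-g.q) (- g.r - g.q * g.p) g.f⟩⟩

@[simp] theorem mul_p (g h : GG.{u} a) : (g * h).p = g.p + h.p := rfl
@[simp] theorem mul_q (g h : GG.{u} a) : (g * h).q = g.q + h.q := rfl
@[simp] theorem mul_b (g h : GG.{u} a) : (g * h).b = g.b + 2 ^ g.p * h.b := rfl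
@[simp] theorem mul_c (g h : GG.{u} a) : (g * h).c = g.c + 2 ^ g.q * h.c := rfl
@[simp] theorem mul_r (g h : GG.{u} a) : (g * h).r = g.r + h.r - g.q * h.p := rfl
@[simp] theorem mul_f (g h : GG.{u} a) : (g * h).f = g.f + act a g.p g.q g.r h.f := rfl
@[simp] theorem one_p : (1 : GG.{u} a).p = 0 := rfl
@[simp] theorem one_q : (1 : GG.{u} a).q = 0 := rfl
@[simp] theorem one_b : (1 : GG.{u} a).b = 0 := rfl
@[simp] theorem one_c : (1 : GG.{u} a).c = 0 := rfl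
@[simp] theorem one_r : (1 : GG.{u} a).r = 0 := rfl
@[simp] theorem one_f : (1 : GG.{u} a).f = 0 := rfl
@[simp] theorem inv_p (g : GG.{u} a) : (g⁻¹).p = -g.p := rfl
@[simp] theorem inv_q (g : GG.{u} a) : (g⁻¹).q = -g.q := rfl
@[simp] theorem inv_b (g : GG.{u} a) : (g⁻¹).b = - (2 ^ (-g.p) * g.b) := rfl
@[simp] theorem inv_c (g : GG.{u} a) : (g⁻¹).c = - (2 ^ (-g.q) * g.c) := rfl
@[simp] theorem inv_r (g : GG.{u} a) : (g⁻¹).r = - g.r - g.q * g.p := rfl
@[simp] theorem inv_f (g : GG.{u} a) :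
    (g⁻¹).f = - act a (-g.p) (-g.q) (- g.r - g.q * g.p) g.f := rfl

noncomputable instance : Group (GG.{u} a) :=
  Group.ofLeftAxioms
    (by
      intro x y z
      ext
      · simp; ring
      · simp; ring
      · simp [zpow_add₀]; ring
      · simp [zpow_add₀]; ring
      · simp; ring
      · simp only [mul_f, mul_p, mul_q, mul_r, act_add_fun, act_act, add_assoc])
    (by
      intro x
      ext <;> simp [act_id])
    (by
      intro x
      ext
      · simp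
      · simp
      · simp
      · simp
      · simp; ring
      · simp)

/-- The key comparing elements lexicographically. -/
noncomputable def key (g : GG.{u} a) : ℤ ×ₗ ℤ ×ₗ ℝ ×ₗ ℝ ×ₗ ℤ ×ₗ Lex (ℤ →₀ ℝ) :=
  toLex (g.p, toLex (g.q, toLex (g.b, toLex (g.c, toLex (g.r, toLex g.f)))))

theorem key_injective : Function.Injective (key : GG.{u} a → _) := by
  intro g h hgh
  simp only [key, toLex_inj, Prod.mk.injEq] at hgh
  obtain ⟨h1, h2, h3, h4, h5, h6⟩ := hgh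
  ext1 <;> assumption

noncomputable instance : LinearOrder (GG.{u} a) := LinearOrder.lift' key key_injective

theorem lt_iff (g h : GG.{u} a) : g < h ↔
    g.p < h.p ∨ g.p = h.p ∧ (g.q < h.q ∨ g.q = h.q ∧ (g.b < h.b ∨ g.b = h.b ∧
      (g.c < h.c ∨ g.c = h.c ∧ (g.r < h.r ∨ g.r = h.r ∧ toLex g.f < toLex h.f)))) := by
  change key g < key h ↔ _
  simp only [key, Prod.Lex.toLex_lt_toLex]

theorem mul_lt_mul_left_aux (c : GG.{u} a) {g h : GG.{u} a} (hgh : g < h) : c * g < c * h := by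
  rw [lt_iff] at hgh ⊢
  simp only [mul_p, mul_q, mul_b, mul_c, mul_r, mul_f]
  have hp : (0 : ℝ) < 2 ^ c.p := by positivity
  have hq : (0 : ℝ) < 2 ^ c.q := by positivity
  rcases hgh with h1 | ⟨h1, h2 | ⟨h2, h3 | ⟨h3, h4 | ⟨h4, h5 | ⟨h5, h6⟩⟩⟩⟩⟩
  · left; linarith
  · right; refine ⟨by rw [h1], ?_⟩
    left; linarith
  · right; refine ⟨by rw [h1], ?_⟩
    right; refine ⟨by rw [h2], ?_⟩
    left; nlinarith [mul_lt_mul_of_pos_left h3 hp]
  · right; refine ⟨by rw [h1], ?_⟩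
    right; refine ⟨by rw [h2], ?_⟩
    right; refine ⟨by rw [h3], ?_⟩
    left; nlinarith [mul_lt_mul_of_pos_left h4 hq]
  · right; refine ⟨by rw [h1], ?_⟩
    right; refine ⟨by rw [h2], ?_⟩
    right; refine ⟨by rw [h3], ?_⟩
    right; refine ⟨by rw [h4], ?_⟩
    left; rw [h1]; linarith
  · right; refine ⟨by rw [h1], ?_⟩
    right; refine ⟨by rw [h2], ?_⟩
    right; refine ⟨by rw [h3], ?_⟩
    right; refine ⟨by rw [h4], ?_⟩
    right; refine ⟨by rw [h5, h1], ?_⟩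
    exact add_lt_add_right (act_lt a c.p c.q c.r h6) (toLex c.f)

theorem mul_lt_mul_right_aux (c : GG.{u} a) {g h : GG.{u} a} (hgh : g < h) : g * c < h * c := by
  rw [lt_iff] at hgh ⊢
  simp only [mul_p, mul_q, mul_b, mul_c, mul_r, mul_f]
  rcases hgh with h1 | ⟨h1, h2 | ⟨h2, h3 | ⟨h3, h4 | ⟨h4, h5 | ⟨h5, h6⟩⟩⟩⟩⟩
  · left; linarith
  · right; refine ⟨by rw [h1], ?_⟩
    left; linarith
  · right; refine ⟨by rw [h1], ?_⟩
    right; refine ⟨by rw [h2], ?_⟩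
    left; rw [h1]; linarith
  · right; refine ⟨by rw [h1], ?_⟩
    right; refine ⟨by rw [h2], ?_⟩
    right; refine ⟨by rw [h3, h1], ?_⟩
    left; rw [h2]; linarith
  · right; refine ⟨by rw [h1], ?_⟩
    right; refine ⟨by rw [h2], ?_⟩
    right; refine ⟨by rw [h3, h1], ?_⟩
    right; refine ⟨by rw [h4, h2], ?_⟩
    left; rw [h2]; linarith
  · right; refine ⟨by rw [h1], ?_⟩
    right; refine ⟨by rw [h2], ?_⟩
    right; refine ⟨by rw [h3, h1], ?_⟩
    right; refine ⟨by rw [h4, h2], ?_⟩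
    right; refine ⟨by rw [h5, h2], ?_⟩
    rw [h1, h2, h5]
    exact add_lt_add_left h6 (toLex (act a h.p h.q h.r c.f))

instance : MulLeftMono (GG.{u} a) :=
  ⟨fun c g h hgh => by
    rcases eq_or_lt_of_le hgh with rfl | h1
    · exact le_refl _
    · exact (mul_lt_mul_left_aux c h1).le⟩

instance : MulRightMono (GG.{u} a) :=
  ⟨fun c g h hgh => by
    rcases eq_or_lt_of_le hgh with rfl | h1
    · exact le_refl _
    · exact (mul_lt_mul_right_aux c h1).le⟩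

/-- `g` lies above `t` modulo the last coordinate. -/
def Big (g : GG.{u} a) : Prop :=
  0 < g.p ∨ g.p = 0 ∧ (0 < g.q ∨ g.q = 0 ∧ (0 < g.b ∨ g.b = 0 ∧ (0 < g.c ∨ g.c = 0 ∧ 1 < g.r)))

theorem Big.mono {g h : GG.{u} a} (hg : Big g) (hgh : g ≤ h) : Big h := by
  rcases eq_or_lt_of_le hgh with rfl | hlt
  · exact hg
  rw [lt_iff] at hlt
  unfold Big at *
  rcases hg with g1 | ⟨g1, g2 | ⟨g2, g3 | ⟨g3, g4 | ⟨g4, g5⟩⟩⟩⟩ <;>
  rcases hlt with h1 | ⟨h1, h2 | ⟨h2, h3 | ⟨h3, h4 | ⟨h4, h5 | ⟨h5, h6⟩⟩⟩⟩⟩ <;>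
  first
  | (left; linarith)
  | (right; refine ⟨by linarith, ?_⟩
     first
     | (left; linarith)
     | (right; refine ⟨by linarith, ?_⟩
        first
        | (left; linarith)
        | (right; refine ⟨by linarith, ?_⟩
           first
           | (left; linarith)
           | (right; refine ⟨by linarith, ?_⟩
              linarith))))

theorem Big.p_nonneg {g : GG.{u} a} (h : Big g) : 0 ≤ g.p := by
  rcases h with h | ⟨h, _⟩ <;> linarith

theorem Big.q_nonneg {g : GG.{u} a} (h : Big g) (hp : g.p = 0) : 0 ≤ g.q := by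
  rcases h with h | ⟨_, h | ⟨h, _⟩⟩ <;> linarith

theorem Big.b_nonneg {g : GG.{u} a} (h : Big g) (hp : g.p = 0) (hq : g.q = 0) : 0 ≤ g.b := by
  rcases h with h | ⟨_, h | ⟨_, h | ⟨h, _⟩⟩⟩
  · omega
  · omega
  · linarith
  · linarith

theorem Big.c_nonneg {g : GG.{u} a} (h : Big g) (hp : g.p = 0) (hq : g.q = 0) (hb : g.b = 0) :
    0 ≤ g.c := by
  rcases h with h | ⟨_, h | ⟨_, h | ⟨_, h | ⟨h, _⟩⟩⟩⟩
  · omega
  · omega
  · linarith
  · linarith
  · linarith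

theorem Big.r_gt {g : GG.{u} a} (h : Big g) (hp : g.p = 0) (hq : g.q = 0) (hb : g.b = 0)
    (hc : g.c = 0) : 1 < g.r := by
  rcases h with h | ⟨_, h | ⟨_, h | ⟨_, h | ⟨_, h⟩⟩⟩⟩
  · omega
  · omega
  · linarith
  · linarith
  · exact h

/-- `(x b x⁻¹)² b⁻³` -/
def c1 {G : Type u} [Group G] (x b : G) : G := (x * b * x⁻¹) * (x * b * x⁻¹) * (b⁻¹ * b⁻¹ * b⁻¹)
/-- `b³ (x b x⁻¹)⁻¹` -/
def c2 {G : Type u} [Group G] (x b : G) : G := b * b * b * (x * b * x⁻¹)⁻¹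
/-- `b³ (y b y⁻¹)⁻²` -/
def c3 {G : Type u} [Group G] (y b : G) : G := b * b * b * ((y * b * y⁻¹)⁻¹ * (y * b * y⁻¹)⁻¹)
/-- `(y b y⁻¹)³ b⁻²` -/
def c4 {G : Type u} [Group G] (y b : G) : G :=
  (y * b * y⁻¹) * (y * b * y⁻¹) * (y * b * y⁻¹) * (b⁻¹ * b⁻¹)

theorem zpow_two_eq_of {n : ℤ} (h1 : (3 : ℝ) / 2 ≤ 2 ^ n) (h2 : (2 : ℝ) ^ n ≤ 3) : n = 1 := by
  have h3 : 0 < n := by
    by_contra hn
    push Not at hn
    have : (2 : ℝ) ^ n ≤ 2 ^ (0 : ℤ) := zpow_le_zpow_right₀ (by norm_num) hn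
    rw [zpow_zero] at this
    linarith
  have h4 : n < 2 := by
    by_contra hn
    push Not at hn
    have : (2 : ℝ) ^ (2 : ℤ) ≤ 2 ^ n := zpow_le_zpow_right₀ (by norm_num) hn
    have h5 : (2 : ℝ) ^ (2 : ℤ) = 4 := by norm_num
    rw [h5] at this
    linarith
  omega

theorem zpow_two_eq_one_of {n : ℤ} (h1 : (2 : ℝ) / 3 ≤ 2 ^ n) (h2 : (2 : ℝ) ^ n ≤ 3 / 2) :
    n = 0 := by
  have h3 : -1 < n := by
    by_contra hn
    push Not at hn
    have : (2 : ℝ) ^ n ≤ 2 ^ (-1 : ℤ) := zpow_le_zpow_right₀ (by norm_num) hn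
    have h5 : (2 : ℝ) ^ (-1 : ℤ) = 1 / 2 := by norm_num
    rw [h5] at this
    linarith
  have h4 : n < 1 := by
    by_contra hn
    push Not at hn
    have : (2 : ℝ) ^ (1 : ℤ) ≤ 2 ^ n := zpow_le_zpow_right₀ (by norm_num) hn
    have h5 : (2 : ℝ) ^ (1 : ℤ) = 2 := by norm_num
    rw [h5] at this
    linarith
  omega

theorem pin_aux {β X Y : ℝ} (hβ : β ≠ 0) (h1 : 0 ≤ 2 * (X * β) - 3 * β)
    (h2 : 0 ≤ 3 * β - X * β) (h3 : 0 ≤ 3 * β - 2 * (Y * β)) (h4 : 0 ≤ 3 * (Y * β) - 2 * β) :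
    3 / 2 ≤ X ∧ X ≤ 3 ∧ 2 / 3 ≤ Y ∧ Y ≤ 3 / 2 := by
  have hβ0 : 0 < β := by
    rcases lt_or_gt_of_ne hβ with h | h
    · exfalso; nlinarith
    · exact h
  refine ⟨?_, ?_, ?_, ?_⟩
  · have : 0 ≤ (2 * X - 3) * β := by nlinarith
    have := nonneg_of_mul_nonneg_left this hβ0
    linarith
  · have : 0 ≤ (3 - X) * β := by nlinarith
    have := nonneg_of_mul_nonneg_left this hβ0
    linarith
  · have : 0 ≤ (3 * Y - 2) * β := by nlinarith
    have := nonneg_of_mul_nonneg_left this hβ0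
    linarith
  · have : 0 ≤ (3 - 2 * Y) * β := by nlinarith
    have := nonneg_of_mul_nonneg_left this hβ0
    linarith

theorem conj_p (x b : GG.{u} a) : (x * b * x⁻¹).p = b.p := by
  simp

theorem conj_q (x b : GG.{u} a) : (x * b * x⁻¹).q = b.q := by
  simp

theorem conj_b {x b : GG.{u} a} (hp : b.p = 0) : (x * b * x⁻¹).b = 2 ^ x.p * b.b := by
  have ex : (2 : ℝ) ^ x.p * 2 ^ (-x.p) = 1 := by
    rw [← zpow_add₀ (by norm_num)]; simp
  simp only [mul_b, mul_p, inv_b, hp, add_zero]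
  linear_combination (-x.b) * ex

theorem conj_c {x b : GG.{u} a} (hq : b.q = 0) : (x * b * x⁻¹).c = 2 ^ x.q * b.c := by
  have ex : (2 : ℝ) ^ x.q * 2 ^ (-x.q) = 1 := by
    rw [← zpow_add₀ (by norm_num)]; simp
  simp only [mul_c, mul_q, inv_c, hq, add_zero]
  linear_combination (-x.c) * ex

theorem conj_r {x b : GG.{u} a} (hp : b.p = 0) (hq : b.q = 0) : (x * b * x⁻¹).r = b.r := by
  simp [hp, hq]; ring

theorem pin {x y b : GG.{u} a} (h1 : Big (c1 x b)) (h2 : Big (c2 x b)) (h3 : Big (c3 y b))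
    (h4 : Big (c4 y b)) : (x.p = 1 ∧ y.p = 0) ∨ (x.q = 1 ∧ y.q = 0) := by
  have hp : b.p = 0 := by
    have e1 := h1.p_nonneg
    have e2 := h2.p_nonneg
    simp only [c1, c2, mul_p, inv_p] at e1 e2
    omega
  have p1 : (c1 x b).p = 0 := by simp [c1, hp]
  have p2 : (c2 x b).p = 0 := by simp [c2, hp]
  have p3 : (c3 y b).p = 0 := by simp [c3, hp]
  have p4 : (c4 y b).p = 0 := by simp [c4, hp]
  have hq : b.q = 0 := by
    have e1 := h1.q_nonneg p1
    have e2 := h2.q_nonneg p2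
    simp only [c1, c2, mul_q, inv_q] at e1 e2
    omega
  have q1 : (c1 x b).q = 0 := by simp [c1, hq]
  have q2 : (c2 x b).q = 0 := by simp [c2, hq]
  have q3 : (c3 y b).q = 0 := by simp [c3, hq]
  have q4 : (c4 y b).q = 0 := by simp [c4, hq]
  have b1 : (c1 x b).b = 2 * (2 ^ x.p * b.b) - 3 * b.b := by
    have e := conj_b (x := x) hp
    have e' := conj_p x b
    unfold c1
    rw [mul_b, mul_b, e]
    simp [hp]; ring
  have b2 : (c2 x b).b = 3 * b.b - 2 ^ x.p * b.b := by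
    have e := conj_b (x := x) hp
    have e' := conj_p x b
    unfold c2
    rw [mul_b, inv_b, e, e', hp]
    simp [hp]; ring
  have b3 : (c3 y b).b = 3 * b.b - 2 * (2 ^ y.p * b.b) := by
    have e := conj_b (x := y) hp
    have e' := conj_p y b
    unfold c3
    rw [mul_b, mul_b ((y * b * y⁻¹)⁻¹), inv_b, inv_p, e, e', hp]
    simp [hp]; ring
  have b4 : (c4 y b).b = 3 * (2 ^ y.p * b.b) - 2 * b.b := by
    have e := conj_b (x := y) hp
    have e' := conj_p y b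
    unfold c4
    rw [mul_b, mul_b, mul_b (y * b * y⁻¹), mul_p (y * b * y⁻¹ * (y * b * y⁻¹)),
      mul_p (y * b * y⁻¹), e, e', hp]
    simp [hp]; ring
  have d1 : (c1 x b).c = 2 * (2 ^ x.q * b.c) - 3 * b.c := by
    have e := conj_c (x := x) hq
    have e' := conj_q x b
    unfold c1
    rw [mul_c, mul_c, e]
    simp [hq]; ring
  have d2 : (c2 x b).c = 3 * b.c - 2 ^ x.q * b.c := by
    have e := conj_c (x := x) hq
    have e' := conj_q x b
    unfold c2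
    rw [mul_c, inv_c, e, e', hq]
    simp [hq]; ring
  have d3 : (c3 y b).c = 3 * b.c - 2 * (2 ^ y.q * b.c) := by
    have e := conj_c (x := y) hq
    have e' := conj_q y b
    unfold c3
    rw [mul_c, mul_c ((y * b * y⁻¹)⁻¹), inv_c, inv_q, e, e', hq]
    simp [hq]; ring
  have d4 : (c4 y b).c = 3 * (2 ^ y.q * b.c) - 2 * b.c := by
    have e := conj_c (x := y) hq
    have e' := conj_q y b
    unfold c4
    rw [mul_c, mul_c, mul_c (y * b * y⁻¹), mul_q (y * b * y⁻¹ * (y * b * y⁻¹)),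
      mul_q (y * b * y⁻¹), e, e', hq]
    simp [hq]; ring
  have r1 : (c1 x b).r = - b.r := by
    simp [c1, hp, hq]; ring
  have r2 : (c2 x b).r = 2 * b.r := by
    simp [c2, hp, hq]; ring
  by_cases hb : b.b = 0
  · by_cases hc : b.c = 0
    · exfalso
      have e1 := h1.r_gt p1 q1 (by rw [b1, hb]; ring) (by rw [d1, hc]; ring)
      have e2 := h2.r_gt p2 q2 (by rw [b2, hb]; ring) (by rw [d2, hc]; ring)
      rw [r1] at e1
      rw [r2] at e2
      omega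
    · right
      have e1 := h1.c_nonneg p1 q1 (by rw [b1, hb]; ring)
      have e2 := h2.c_nonneg p2 q2 (by rw [b2, hb]; ring)
      have e3 := h3.c_nonneg p3 q3 (by rw [b3, hb]; ring)
      have e4 := h4.c_nonneg p4 q4 (by rw [b4, hb]; ring)
      rw [d1] at e1
      rw [d2] at e2
      rw [d3] at e3
      rw [d4] at e4
      obtain ⟨f1, f2, f3, f4⟩ := pin_aux hc e1 e2 e3 e4
      exact ⟨zpow_two_eq_of f1 f2, zpow_two_eq_one_of f3 f4⟩
  · left
    have e1 := h1.b_nonneg p1 q1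
    have e2 := h2.b_nonneg p2 q2
    have e3 := h3.b_nonneg p3 q3
    have e4 := h4.b_nonneg p4 q4
    rw [b1] at e1
    rw [b2] at e2
    rw [b3] at e3
    rw [b4] at e4
    obtain ⟨f1, f2, f3, f4⟩ := pin_aux hb e1 e2 e3 e4
    exact ⟨zpow_two_eq_of f1 f2, zpow_two_eq_one_of f3 f4⟩

/-- The commutator `z = x y x⁻¹ y⁻¹`. -/
def zz {G : Type u} [Group G] (x y : G) : G := x * y * x⁻¹ * y⁻¹
/-- `z₁ = (x z x⁻¹) z⁻²` -/
def z1 {G : Type u} [Group G] (x y : G) : G := (x * zz x y * x⁻¹) * ((zz x y)⁻¹ * (zz x y)⁻¹)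
/-- `w = (y z₁ y⁻¹) z₁⁻²` -/
def ww {G : Type u} [Group G] (x y : G) : G := (y * z1 x y * y⁻¹) * ((z1 x y)⁻¹ * (z1 x y)⁻¹)

theorem zz_p (x y : GG.{u} a) : (zz x y).p = 0 := by simp [zz]
theorem zz_q (x y : GG.{u} a) : (zz x y).q = 0 := by simp [zz]
theorem zz_r (x y : GG.{u} a) : (zz x y).r = x.p * y.q - x.q * y.p := by
  simp [zz]; ring
theorem z1_p (x y : GG.{u} a) : (z1 x y).p = 0 := by simp [z1, zz_p]
theorem z1_q (x y : GG.{u} a) : (z1 x y).q = 0 := by simp [z1, zz_q]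
theorem z1_r (x y : GG.{u} a) : (z1 x y).r = - (x.p * y.q - x.q * y.p) := by
  unfold z1
  rw [mul_r, conj_r (zz_p x y) (zz_q x y), mul_r, inv_r, zz_r, conj_q, inv_p, zz_p, zz_q, mul_p,
    inv_p, zz_p, inv_q, zz_q]
  ring
theorem z1_b (x y : GG.{u} a) : (z1 x y).b = (2 ^ x.p - 2) * (zz x y).b := by
  unfold z1
  rw [mul_b, conj_b (zz_p x y), conj_p, zz_p, mul_b, inv_b, inv_p, zz_p]
  simp; ring
theorem z1_c (x y : GG.{u} a) : (z1 x y).c = (2 ^ x.q - 2) * (zz x y).c := by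
  unfold z1
  rw [mul_c, conj_c (zz_q x y), conj_q, zz_q, mul_c, inv_c, inv_q, zz_q]
  simp; ring
theorem ww_p (x y : GG.{u} a) : (ww x y).p = 0 := by simp [ww, z1_p]
theorem ww_q (x y : GG.{u} a) : (ww x y).q = 0 := by simp [ww, z1_q]
theorem ww_r (x y : GG.{u} a) : (ww x y).r = x.p * y.q - x.q * y.p := by
  unfold ww
  rw [mul_r, conj_r (z1_p x y) (z1_q x y), mul_r, inv_r, z1_r, conj_q, inv_p, z1_p, z1_q, mul_p,
    inv_p, z1_p, inv_q, z1_q]
  ring
theorem ww_b (x y : GG.{u} a) : (ww x y).b = (2 ^ y.p - 2) * ((2 ^ x.p - 2) * (zz x y).b) := by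
  unfold ww
  rw [mul_b, conj_b (z1_p x y), conj_p, z1_p, mul_b, inv_b, inv_p, z1_p, z1_b]
  simp; ring
theorem ww_c (x y : GG.{u} a) : (ww x y).c = (2 ^ y.q - 2) * ((2 ^ x.q - 2) * (zz x y).c) := by
  unfold ww
  rw [mul_c, conj_c (z1_q x y), conj_q, z1_q, mul_c, inv_c, inv_q, z1_q, z1_c]
  simp; ring

/-- The value of the term defining the second variety. -/
def vv {G : Type u} [Group G] [Lattice G] (x y b d : G) : G :=
  ww x y ⊓ (c1 x b ⊓ (c2 x b ⊓ (c3 y b ⊓ (c4 y b ⊓ (c1 y d ⊓ (c2 y d ⊓ (c3 x d ⊓ c4 x d)))))))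

theorem not_big_vv (x y b d : GG.{u} a) : ¬ Big (vv x y b d) := by
  intro h
  have h0 : Big (ww x y) := h.mono (by simp [vv])
  have h1 : Big (c1 x b) := h.mono (by simp [vv])
  have h2 : Big (c2 x b) := h.mono (by simp [vv])
  have h3 : Big (c3 y b) := h.mono (by simp [vv])
  have h4 : Big (c4 y b) := h.mono (by simp [vv])
  have h5 : Big (c1 y d) := h.mono (by simp [vv])
  have h6 : Big (c2 y d) := h.mono (by simp [vv])
  have h7 : Big (c3 x d) := h.mono (by simp [vv])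
  have h8 : Big (c4 x d) := h.mono (by simp [vv])
  rcases pin h1 h2 h3 h4 with ⟨k1, k2⟩ | ⟨k1, k2⟩ <;>
  rcases pin h5 h6 h7 h8 with ⟨k3, k4⟩ | ⟨k3, k4⟩
  · omega
  · have := h0.r_gt (ww_p x y) (ww_q x y) (by rw [ww_b, k1]; norm_num) (by rw [ww_c, k3]; norm_num)
    rw [ww_r, k1, k2, k3, k4] at this
    omega
  · have := h0.r_gt (ww_p x y) (ww_q x y) (by rw [ww_b, k3]; norm_num) (by rw [ww_c, k1]; norm_num)
    rw [ww_r, k1, k2, k3, k4] at this
    omega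
  · omega

/-- `g` lies in the subgroup generated by `t` and the last coordinate, with exponent of `t`
bounded by `m`. -/
def Small (m : ℤ) (g : GG.{u} a) : Prop :=
  g.p = 0 ∧ g.q = 0 ∧ g.b = 0 ∧ g.c = 0 ∧ |g.r| ≤ m

theorem small_of_not_big {g : GG.{u} a} (h1 : 1 ≤ g) (h2 : ¬ Big g) : Small 1 g := by
  rcases eq_or_lt_of_le h1 with rfl | hlt
  · simp [Small]
  rw [lt_iff] at hlt
  simp only [one_p, one_q, one_b, one_c, one_r, one_f] at hlt
  unfold Big at h2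
  push Not at h2
  obtain ⟨e1, h2⟩ := h2
  rcases hlt with h1 | ⟨h1, hlt⟩
  · omega
  obtain ⟨e2, h2⟩ := h2 h1.symm
  rcases hlt with h3 | ⟨h3, hlt⟩
  · omega
  obtain ⟨e3, h2⟩ := h2 h3.symm
  rcases hlt with h4 | ⟨h4, hlt⟩
  · linarith
  obtain ⟨e4, h2⟩ := h2 h4.symm
  rcases hlt with h5 | ⟨h5, hlt⟩
  · linarith
  have h2 := h2 h5.symm
  refine ⟨h1.symm, h3.symm, h4.symm, h5.symm, ?_⟩
  rw [abs_le]
  rcases hlt with h6 | ⟨h6, hlt⟩ <;> constructor <;> omega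

theorem small_vv (x y b d : GG.{u} a) : Small 1 (vv x y b d ⊔ 1) := by
  rcases le_total (vv x y b d) 1 with h | h
  · rw [sup_eq_right.mpr h]
    simp [Small]
  · rw [sup_eq_left.mpr h]
    exact small_of_not_big h (not_big_vv x y b d)

theorem Small.mono {m n : ℤ} (h : m ≤ n) {g : GG.{u} a} (hg : Small m g) : Small n g :=
  ⟨hg.1, hg.2.1, hg.2.2.1, hg.2.2.2.1, hg.2.2.2.2.trans h⟩

theorem Small.mul {m n : ℤ} {g h : GG.{u} a} (hg : Small m g) (hh : Small n h) :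
    Small (m + n) (g * h) := by
  obtain ⟨g1, g2, g3, g4, g5⟩ := hg
  obtain ⟨h1, h2, h3, h4, h5⟩ := hh
  refine ⟨by simp [g1, h1], by simp [g2, h2], by simp [g3, h3], by simp [g4, h4], ?_⟩
  rw [mul_r, g2]
  have := abs_add_le g.r h.r
  simp only [zero_mul, sub_zero]
  linarith

theorem Small.inv {m : ℤ} {g : GG.{u} a} (hg : Small m g) : Small m g⁻¹ := by
  obtain ⟨g1, g2, g3, g4, g5⟩ := hg
  refine ⟨by simp [g1], by simp [g2], by simp [g3], by simp [g4], ?_⟩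
  rw [inv_r, g2]
  simpa using g5

theorem Small.conj {m : ℤ} {g : GG.{u} a} (hg : Small m g) (x : GG.{u} a) :
    Small m (x * g * x⁻¹) := by
  obtain ⟨g1, g2, g3, g4, g5⟩ := hg
  refine ⟨by rw [conj_p, g1], by rw [conj_q, g2], by rw [conj_b g1, g3, mul_zero],
    by rw [conj_c g2, g4, mul_zero], by rw [conj_r g1 g2]; exact g5⟩

theorem Small.convex {m n : ℤ} {g h k : GG.{u} a} (hg : Small m g) (hk : Small n k)
    (h1 : g ≤ h) (h2 : h ≤ k) : Small (max m n) h := by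
  rcases eq_or_lt_of_le h1 with rfl | h1
  · exact hg.mono (le_max_left _ _)
  rcases eq_or_lt_of_le h2 with rfl | h2
  · exact hk.mono (le_max_right _ _)
  rw [lt_iff] at h1 h2
  obtain ⟨g1, g2, g3, g4, g5⟩ := hg
  obtain ⟨k1, k2, k3, k4, k5⟩ := hk
  rw [g1, g2, g3, g4] at h1
  rw [k1, k2, k3, k4] at h2
  have m1 := le_max_left m n
  have m2 := le_max_right m n
  rw [abs_le] at g5 k5
  rcases h1 with h1 | ⟨p1, h1⟩ <;> rcases h2 with h2 | ⟨p2, h2⟩
  · omega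
  · omega
  · omega
  rcases h1 with h1 | ⟨q1, h1⟩ <;> rcases h2 with h2 | ⟨q2, h2⟩
  · omega
  · omega
  · omega
  rcases h1 with h1 | ⟨b1, h1⟩ <;> rcases h2 with h2 | ⟨b2, h2⟩
  · linarith
  · linarith
  · linarith
  rcases h1 with h1 | ⟨c1, h1⟩ <;> rcases h2 with h2 | ⟨c2, h2⟩
  · linarith
  · linarith
  · linarith
  refine ⟨p2, q2, b2, c2, ?_⟩
  rw [abs_le]
  rcases h1 with h1 | ⟨r1, h1⟩ <;> rcases h2 with h2 | ⟨r2, h2⟩ <;> constructor <;> omega

theorem conj_f {x g : GG.{u} a} (x1 : x.p = 0) (x2 : x.q = 0) (g1 : g.p = 0) (g2 : g.q = 0)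
    (g5 : g.r = 0) : (x * g * x⁻¹).f = act a 0 0 x.r g.f := by
  rw [mul_f, mul_f, inv_f, act_neg_fun, act_act, mul_r, mul_p, mul_q, x1, x2, g1, g2, g5]
  simp only [neg_zero, add_zero, mul_zero, sub_zero, add_neg_cancel, act_id]
  abel

/-- The law of weakly abelian `ℓ`-groups holds on small elements. -/
theorem weakly_abelian_aux {m : ℤ} (hm : Real.exp (a * m) < 2) (ha : 0 ≤ a) {x Y : GG.{u} a}
    (hx : Small m x) (hY : Small m Y) (hY1 : 1 ≤ Y) : x * Y * x⁻¹ ≤ Y * Y := by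
  rcases eq_or_lt_of_le hY1 with rfl | hlt
  · simp
  rw [lt_iff] at hlt
  obtain ⟨y1, y2, y3, y4, y5⟩ := hY
  obtain ⟨x1, x2, x3, x4, x5⟩ := hx
  simp only [one_p, one_q, one_b, one_c, one_r, one_f, y1, y2, y3, y4, lt_irrefl, false_or,
    true_and] at hlt
  apply le_of_lt
  rw [lt_iff]
  right
  refine ⟨by simp [y1], ?_⟩
  right
  refine ⟨by simp [y2], ?_⟩
  right
  refine ⟨by rw [conj_b y1, mul_b, y3]; simp, ?_⟩
  right
  refine ⟨by rw [conj_c y2, mul_c, y4]; simp, ?_⟩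
  rw [conj_r y1 y2, mul_r, y1]
  rcases hlt with hr | ⟨hr, hf⟩
  · left; linarith
  · right
    refine ⟨by rw [← hr]; ring, ?_⟩
    rw [conj_f x1 x2 y1 y2 hr.symm, mul_f, y1, y2, ← hr, act_id]
    rw [Finsupp.Lex.lt_iff] at hf ⊢
    obtain ⟨i, h1, h2⟩ := hf
    simp only [ofLex_toLex, Finsupp.coe_zero, Pi.zero_apply] at h1 h2
    have h3 : Real.exp (a * x.r) < 2 := by
      refine lt_of_le_of_lt ?_ hm
      apply Real.exp_le_exp.mpr
      apply mul_le_mul_of_nonneg_left _ ha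
      have := (abs_le.mp x5).2
      exact_mod_cast this
    refine ⟨i, ?_, ?_⟩
    · intro j hj
      simp only [ofLex_toLex, act_apply, Finsupp.add_apply, sub_zero, ← h1 j hj]
      simp
    · simp only [ofLex_toLex, act_apply, Finsupp.add_apply, sub_zero, Int.cast_zero, zero_mul]
      nlinarith

theorem small_sup_one {m : ℤ} {y : GG.{u} a} (hy : Small m y) : Small m (y ⊔ 1) := by
  rcases le_total y 1 with h | h
  · rw [sup_eq_right.mpr h]
    refine ⟨rfl, rfl, rfl, rfl, ?_⟩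
    have := abs_nonneg y.r
    simp only [one_r, abs_zero]
    exact this.trans hy.2.2.2.2
  · rw [sup_eq_left.mpr h]
    exact hy

theorem weakly_abelian {m : ℤ} (hm : Real.exp (a * m) < 2) (ha : 0 ≤ a) {x y : GG.{u} a}
    (hx : Small m x) (hy : Small m y) : x⁻¹ * (y ⊔ 1) * x ≤ (y ⊔ 1) * (y ⊔ 1) := by
  have := weakly_abelian_aux hm ha hx.inv (small_sup_one hy) le_sup_right
  simpa using this

/-- The element `t`. -/
def tt (a : ℝ) (n : ℤ) : GG.{u} a := ⟨0, 0, 0, 0, n, 0⟩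

/-- The element `δ`. -/
noncomputable def dd (a : ℝ) : GG.{u} a := ⟨0, 0, 0, 0, 0, Finsupp.single 0 1⟩

theorem tt_pow (a : ℝ) (n : ℕ) : (tt a 1 : GG.{u} a) ^ n = tt a n := by
  induction n with
  | zero => rfl
  | succ n ih =>
    rw [pow_succ, ih]
    ext <;> simp [tt, act_zero_fun]

theorem one_lt_dd : 1 < (dd a : GG.{u} a) := by
  rw [lt_iff]
  simp only [dd, one_p, one_q, one_b, one_c, one_r, one_f, lt_irrefl, false_or, true_and]
  rw [Finsupp.Lex.lt_iff]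
  refine ⟨0, ?_, ?_⟩
  · intro j hj
    simp [Finsupp.single_apply, hj.ne']
  · simp

theorem dd_lt_tt : (dd a : GG.{u} a) < tt a 1 := by
  rw [lt_iff]
  simp [dd, tt]

theorem not_weakly_abelian (ha : 0 < a) :
    ∃ n : ℕ, ¬ ((tt a n : GG.{u} a) * dd a * (tt a n)⁻¹ ≤ dd a * dd a) := by
  obtain ⟨n, hn⟩ := exists_nat_gt (Real.log 2 / a)
  refine ⟨n, ?_⟩
  rw [not_le, lt_iff]
  have h2 : (2 : ℝ) < Real.exp (a * n) := by
    rw [← Real.log_lt_iff_lt_exp (by norm_num)]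
    rw [div_lt_iff₀ ha] at hn
    linarith
  right
  refine ⟨by simp [dd, tt], ?_⟩
  right
  refine ⟨by simp [dd, tt], ?_⟩
  right
  refine ⟨by simp [dd, tt], ?_⟩
  right
  refine ⟨by simp [dd, tt], ?_⟩
  right
  refine ⟨by simp [dd, tt], ?_⟩
  rw [conj_f (by simp [tt]) (by simp [tt]) (by simp [dd]) (by simp [dd]) (by simp [dd])]
  rw [mul_f, Finsupp.Lex.lt_iff]
  refine ⟨0, ?_, ?_⟩
  · intro j hj
    simp [dd, tt, act_apply, Finsupp.single_apply, hj.ne']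
  · simp only [dd, tt, act_apply, ofLex_toLex, Finsupp.add_apply, Finsupp.single_apply]
    simp
    linarith

/-- The elements `x`, `y`, `b`, `d` witnessing that `t` is a value of the second law. -/
def xx (a : ℝ) : GG.{u} a := ⟨1, 0, 0, 0, 0, 0⟩
/-- See `xx`. -/
def yy (a : ℝ) : GG.{u} a := ⟨0, 1, 0, 0, 0, 0⟩
/-- See `xx`. -/
noncomputable def bb (a : ℝ) : GG.{u} a := ⟨0, 0, 1, 0, 0, 0⟩
/-- See `xx`. -/
noncomputable def ee (a : ℝ) : GG.{u} a := ⟨0, 0, 0, 1, 0, 0⟩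

theorem tt_le_vv : (tt a 1 : GG.{u} a) ≤ vv (xx a) (yy a) (bb a) (ee a) := by
  unfold vv
  refine le_inf ?_ (le_inf ?_ (le_inf ?_ (le_inf ?_ (le_inf ?_ (le_inf ?_ (le_inf ?_
    (le_inf ?_ ?_)))))))
  · apply le_of_eq
    have hf : (ww (xx a) (yy a) : GG.{u} a).f = 0 := by
      simp [ww, z1, zz, xx, yy, act_zero_fun]
    ext1
    · rw [ww_p]; rfl
    · rw [ww_q]; rfl
    · rw [ww_b]; simp [xx, yy, tt]
    · rw [ww_c]; simp [xx, yy, tt]
    · rw [ww_r]; simp [xx, yy, tt]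
    · rw [hf]; rfl
  all_goals
    apply le_of_lt
    rw [lt_iff]
    simp [c1, c2, c3, c4, xx, yy, bb, ee, tt]
    try norm_num

end GG

end Pool.Agent.Helper2.LG
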