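import Mathlib

/-!
Varieties of lattice-ordered groups: terms, laws, l-ideals, quotients, products.
-/

universe u

namespace Pool.Agent.Helper2.LG

/-- Terms in the signature of lattice-ordered groups, with variables indexed by `ℕ`. -/
inductive LTerm : Type
  | var : ℕ → LTerm
  | one : LTerm
  | mul : LTerm → LTerm → LTerm
  | inv : LTerm → LTerm
  | inf : LTerm → LTerm → LTerm
  | sup : LTerm → LTerm → LTerm

/-- The value of a term in a lattice-ordered group under an assignment of the variables. -/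
def LTerm.eval {G : Type u} [Group G] [Lattice G] (ρ : ℕ → G) : LTerm → G
  | .var n => ρ n
  | .one => 1
  | .mul s t => s.eval ρ * t.eval ρ
  | .inv s => (s.eval ρ)⁻¹
  | .inf s t => s.eval ρ ⊓ t.eval ρ
  | .sup s t => s.eval ρ ⊔ t.eval ρ

/-- An identity (law) is a pair of terms. -/
abbrev Law : Type := LTerm × LTerm

/-- The law `l` holds in `G`. -/
def Satisfies (G : Type u) [Group G] [Lattice G] (l : Law) : Prop :=
  ∀ ρ : ℕ → G, l.1.eval ρ = l.2.eval ρ

/-- `G` is a model of the set `S` of laws, i.e. `G` belongs to the variety defined by `S`. -/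
def Models (G : Type u) [Group G] [Lattice G] (S : Set Law) : Prop :=
  ∀ l ∈ S, Satisfies G l

/-- An `ℓ`-ideal of `G`: a normal subgroup that is also a convex sublattice. -/
structure IsLIdeal {G : Type u} [Group G] [Lattice G] (N : Subgroup G) : Prop where
  normal : N.Normal
  sup_mem : ∀ a ∈ N, ∀ b ∈ N, a ⊔ b ∈ N
  inf_mem : ∀ a ∈ N, ∀ b ∈ N, a ⊓ b ∈ N
  convex : ∀ a ∈ N, ∀ c ∈ N, ∀ b : G, a ≤ b → b ≤ c → b ∈ N

/-- The lattice structure that an `ℓ`-ideal inherits as a sublattice. -/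
@[reducible] def idealLattice {G : Type u} [Group G] [Lattice G] {N : Subgroup G}
    (h : IsLIdeal N) : Lattice N :=
  Subtype.lattice (fun _ _ ha hb => h.sup_mem _ ha _ hb) (fun _ _ ha hb => h.inf_mem _ ha _ hb)

section Quot

variable {G : Type u} [Group G] [Lattice G] [MulLeftMono G] [MulRightMono G]

omit [MulRightMono G] in
theorem bound_aux {N : Subgroup G} (h : IsLIdeal N) {a a' : G} (ha : a⁻¹ * a' ∈ N) :
    ∃ n ∈ N, a' ≤ a * n ∧ a ≤ a' * n := by
  refine ⟨a⁻¹ * a' ⊔ (a⁻¹ * a')⁻¹, h.sup_mem _ ha _ (N.inv_mem ha), ?_, ?_⟩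
  · have : a⁻¹ * a' ≤ a⁻¹ * a' ⊔ (a⁻¹ * a')⁻¹ := le_sup_left
    calc a' = a * (a⁻¹ * a') := by group
      _ ≤ _ := mul_le_mul_right this a
  · have : (a⁻¹ * a')⁻¹ ≤ a⁻¹ * a' ⊔ (a⁻¹ * a')⁻¹ := le_sup_right
    calc a = a' * (a⁻¹ * a')⁻¹ := by group
      _ ≤ _ := mul_le_mul_right this a'

theorem sup_congr_aux {N : Subgroup G} (h : IsLIdeal N) {a a' b b' : G}
    (ha : a⁻¹ * a' ∈ N) (hb : b⁻¹ * b' ∈ N) : (a ⊔ b)⁻¹ * (a' ⊔ b') ∈ N := by
  obtain ⟨n, hn, h1, h2⟩ := bound_aux h ha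
  obtain ⟨m, hm, h3, h4⟩ := bound_aux h hb
  have hk : n ⊔ m ∈ N := h.sup_mem _ hn _ hm
  have e1 : a' ⊔ b' ≤ (a ⊔ b) * (n ⊔ m) := by
    apply sup_le
    · exact h1.trans (mul_le_mul' le_sup_left le_sup_left)
    · exact h3.trans (mul_le_mul' le_sup_right le_sup_right)
  have e2 : a ⊔ b ≤ (a' ⊔ b') * (n ⊔ m) := by
    apply sup_le
    · exact h2.trans (mul_le_mul' le_sup_left le_sup_left)
    · exact h4.trans (mul_le_mul' le_sup_right le_sup_right)
  refine h.convex (n ⊔ m)⁻¹ (N.inv_mem hk) (n ⊔ m) hk _ ?_ ?_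
  · rw [inv_le_iff_one_le_mul, mul_assoc, ← inv_mul_le_iff_le_mul, mul_one, inv_inv]
    exact e2
  · exact inv_mul_le_iff_le_mul.mpr e1

theorem inf_congr_aux {N : Subgroup G} (h : IsLIdeal N) {a a' b b' : G}
    (ha : a⁻¹ * a' ∈ N) (hb : b⁻¹ * b' ∈ N) : (a ⊓ b)⁻¹ * (a' ⊓ b') ∈ N := by
  obtain ⟨n, hn, h1, h2⟩ := bound_aux h ha
  obtain ⟨m, hm, h3, h4⟩ := bound_aux h hb
  have hk : n ⊔ m ∈ N := h.sup_mem _ hn _ hm
  have e1 : a' ⊓ b' ≤ (a ⊓ b) * (n ⊔ m) := by
    rw [inf_mul]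
    exact le_inf (inf_le_left.trans (h1.trans (mul_le_mul_right le_sup_left a)))
      (inf_le_right.trans (h3.trans (mul_le_mul_right le_sup_right b)))
  have e2 : a ⊓ b ≤ (a' ⊓ b') * (n ⊔ m) := by
    rw [inf_mul]
    exact le_inf (inf_le_left.trans (h2.trans (mul_le_mul_right le_sup_left a')))
      (inf_le_right.trans (h4.trans (mul_le_mul_right le_sup_right b')))
  refine h.convex (n ⊔ m)⁻¹ (N.inv_mem hk) (n ⊔ m) hk _ ?_ ?_
  · rw [inv_le_iff_one_le_mul, mul_assoc, ← inv_mul_le_iff_le_mul, mul_one, inv_inv]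
    exact e2
  · exact inv_mul_le_iff_le_mul.mpr e1

/-- The join on the quotient `G ⧸ N`, induced from the join of `G`. -/
def supQ {N : Subgroup G} (h : IsLIdeal N) : G ⧸ N → G ⧸ N → G ⧸ N :=
  Quotient.map₂ (· ⊔ ·) (fun _ _ ha _ _ hb => QuotientGroup.leftRel_apply.mpr
    (sup_congr_aux h (QuotientGroup.leftRel_apply.mp ha) (QuotientGroup.leftRel_apply.mp hb)))

/-- The meet on the quotient `G ⧸ N`, induced from the meet of `G`. -/
def infQ {N : Subgroup G} (h : IsLIdeal N) : G ⧸ N → G ⧸ N → G ⧸ N :=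
  Quotient.map₂ (· ⊓ ·) (fun _ _ ha _ _ hb => QuotientGroup.leftRel_apply.mpr
    (inf_congr_aux h (QuotientGroup.leftRel_apply.mp ha) (QuotientGroup.leftRel_apply.mp hb)))

theorem supQ_mk {N : Subgroup G} (h : IsLIdeal N) (a b : G) :
    supQ h (a : G ⧸ N) (b : G ⧸ N) = ((a ⊔ b : G) : G ⧸ N) := rfl

theorem infQ_mk {N : Subgroup G} (h : IsLIdeal N) (a b : G) :
    infQ h (a : G ⧸ N) (b : G ⧸ N) = ((a ⊓ b : G) : G ⧸ N) := rfl

/-- The lattice structure on the quotient of an `ℓ`-group by an `ℓ`-ideal. -/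
@[reducible] def quotientLattice {N : Subgroup G} (h : IsLIdeal N) : Lattice (G ⧸ N) :=
  letI : Max (G ⧸ N) := ⟨supQ h⟩
  letI : Min (G ⧸ N) := ⟨infQ h⟩
  Lattice.mk'
    (by
      rintro ⟨a⟩ ⟨b⟩
      exact congrArg (QuotientGroup.mk : G → G ⧸ N) (sup_comm a b))
    (by
      rintro ⟨a⟩ ⟨b⟩ ⟨c⟩
      exact congrArg (QuotientGroup.mk : G → G ⧸ N) (sup_assoc a b c))
    (by
      rintro ⟨a⟩ ⟨b⟩
      exact congrArg (QuotientGroup.mk : G → G ⧸ N) (inf_comm a b))
    (by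
      rintro ⟨a⟩ ⟨b⟩ ⟨c⟩
      exact congrArg (QuotientGroup.mk : G → G ⧸ N) (inf_assoc a b c))
    (by
      rintro ⟨a⟩ ⟨b⟩
      exact congrArg (QuotientGroup.mk : G → G ⧸ N) (sup_inf_self (a := a) (b := b)))
    (by
      rintro ⟨a⟩ ⟨b⟩
      exact congrArg (QuotientGroup.mk : G → G ⧸ N) (inf_sup_self (a := a) (b := b)))

theorem quotient_mulLeftMono {N : Subgroup G} (h : IsLIdeal N) :
    letI := h.normal
    letI := quotientLattice h
    MulLeftMono (G ⧸ N) := by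
  letI := h.normal
  letI := quotientLattice h
  refine ⟨?_⟩
  rintro ⟨c⟩ ⟨a⟩ ⟨b⟩ hab
  have hab' : (QuotientGroup.mk (a ⊔ b) : G ⧸ N) = QuotientGroup.mk b := hab
  change (QuotientGroup.mk (c * a ⊔ c * b) : G ⧸ N) = QuotientGroup.mk (c * b)
  rw [← mul_sup]
  exact congrArg (fun z : G ⧸ N => (QuotientGroup.mk c : G ⧸ N) * z) hab'

theorem quotient_mulRightMono {N : Subgroup G} (h : IsLIdeal N) :
    letI := h.normal
    letI := quotientLattice h
    MulRightMono (G ⧸ N) := by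
  letI := h.normal
  letI := quotientLattice h
  refine ⟨?_⟩
  rintro ⟨c⟩ ⟨a⟩ ⟨b⟩ hab
  have hab' : (QuotientGroup.mk (a ⊔ b) : G ⧸ N) = QuotientGroup.mk b := hab
  change (QuotientGroup.mk (a * c ⊔ b * c) : G ⧸ N) = QuotientGroup.mk (b * c)
  rw [← sup_mul]
  exact congrArg (fun z : G ⧸ N => z * (QuotientGroup.mk c : G ⧸ N)) hab'

theorem eval_quotient {N : Subgroup G} (h : IsLIdeal N) (ρ : ℕ → G) (t : LTerm) :
    letI := h.normal
    letI := quotientLattice h
    t.eval (fun n => (QuotientGroup.mk (ρ n) : G ⧸ N)) = QuotientGroup.mk (t.eval ρ) := by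
  letI := h.normal
  letI := quotientLattice h
  induction t with
  | var n => rfl
  | one => rfl
  | mul s t hs ht =>
    simp only [LTerm.eval]
    rw [hs, ht]; rfl
  | inv s hs =>
    simp only [LTerm.eval]
    rw [hs]; rfl
  | inf s t hs ht =>
    simp only [LTerm.eval]
    rw [hs, ht]; rfl
  | sup s t hs ht =>
    simp only [LTerm.eval]
    rw [hs, ht]; rfl

theorem satisfies_quotient_iff {N : Subgroup G} (h : IsLIdeal N) (l : Law) :
    (letI := h.normal; letI := quotientLattice h; Satisfies (G ⧸ N) l) ↔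
      ∀ ρ : ℕ → G, (l.1.eval ρ)⁻¹ * l.2.eval ρ ∈ N := by
  letI := h.normal
  letI := quotientLattice h
  constructor
  · intro hs ρ
    have := hs (fun n => (QuotientGroup.mk (ρ n) : G ⧸ N))
    rw [eval_quotient h, eval_quotient h] at this
    exact QuotientGroup.eq.mp this
  · intro hs ρ
    choose σ hσ using fun n => QuotientGroup.mk_surjective (ρ n)
    have e : ρ = fun n => (QuotientGroup.mk (σ n) : G ⧸ N) := by
      funext n; exact (hσ n).symm
    rw [e, eval_quotient h, eval_quotient h]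
    exact QuotientGroup.eq.mpr (hs σ)

theorem eval_ideal {N : Subgroup G} (h : IsLIdeal N) (ρ : ℕ → N) (t : LTerm) :
    letI := idealLattice h
    ((t.eval ρ : N) : G) = t.eval (fun n => (ρ n : G)) := by
  letI := idealLattice h
  induction t with
  | var n => rfl
  | one => rfl
  | mul s t hs ht =>
    simp only [LTerm.eval]
    rw [← hs, ← ht]; rfl
  | inv s hs =>
    simp only [LTerm.eval]
    rw [← hs]; rfl
  | inf s t hs ht =>
    simp only [LTerm.eval]
    rw [← hs, ← ht]; rfl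
  | sup s t hs ht =>
    simp only [LTerm.eval]
    rw [← hs, ← ht]; rfl

theorem satisfies_ideal_iff {N : Subgroup G} (h : IsLIdeal N) (l : Law) :
    (letI := idealLattice h; Satisfies N l) ↔
      ∀ ρ : ℕ → G, (∀ n, ρ n ∈ N) → l.1.eval ρ = l.2.eval ρ := by
  letI := idealLattice h
  constructor
  · intro hs ρ hρ
    have := hs (fun n => ⟨ρ n, hρ n⟩)
    have := congrArg (Subtype.val) this
    rw [eval_ideal h, eval_ideal h] at this
    exact this
  · intro hs ρ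
    apply Subtype.ext
    rw [eval_ideal h, eval_ideal h]
    exact hs _ (fun n => (ρ n).2)

/-- `G` belongs to the product of the varieties defined by `S₁` and `S₂`: there is an `ℓ`-ideal `N`
of `G` with `N` in the first variety and `G ⧸ N` in the second. -/
def InProduct (G : Type u) [Group G] [Lattice G] [MulLeftMono G] [MulRightMono G]
    (S₁ S₂ : Set Law) : Prop :=
  ∃ (N : Subgroup G) (h : IsLIdeal N),
    (letI := idealLattice h; Models N S₁) ∧
    (letI := h.normal; letI := quotientLattice h; Models (G ⧸ N) S₂)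


/-- The image of an `ℓ`-ideal `N₁ ≥ N₀` in the quotient by `N₀` is an `ℓ`-ideal. -/
theorem map_isLIdeal {N₀ N₁ : Subgroup G} (h₀ : IsLIdeal N₀) (h₁ : IsLIdeal N₁) (h : N₀ ≤ N₁) :
    letI := h₀.normal
    letI := quotientLattice h₀
    IsLIdeal (N₁.map (QuotientGroup.mk' N₀)) := by
  letI := h₀.normal
  letI := quotientLattice h₀
  refine ⟨h₁.normal.map _ (QuotientGroup.mk'_surjective N₀), ?_, ?_, ?_⟩
  · rintro _ ⟨a, ha, rfl⟩ _ ⟨b, hb, rfl⟩
    exact ⟨a ⊔ b, h₁.sup_mem a ha b hb, rfl⟩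
  · rintro _ ⟨a, ha, rfl⟩ _ ⟨b, hb, rfl⟩
    exact ⟨a ⊓ b, h₁.inf_mem a ha b hb, rfl⟩
  · rintro _ ⟨a, ha, rfl⟩ _ ⟨c, hc, rfl⟩ ⟨b⟩ hab hbc
    have hab' : (QuotientGroup.mk (a ⊔ b) : G ⧸ N₀) = QuotientGroup.mk b := hab
    have hbc' : (QuotientGroup.mk (b ⊔ c) : G ⧸ N₀) = QuotientGroup.mk c := hbc
    refine ⟨b, ?_, rfl⟩
    have h1 : (a ⊔ b)⁻¹ * b ∈ N₁ := h (QuotientGroup.eq.mp hab')
    have h2 : (b ⊔ c)⁻¹ * c ∈ N₁ := h (QuotientGroup.eq.mp hbc')
    have h3 : b ⊔ c ∈ N₁ := by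
      have : b ⊔ c = c * ((b ⊔ c)⁻¹ * c)⁻¹ := by group
      rw [this]
      exact N₁.mul_mem hc (N₁.inv_mem h2)
    refine h₁.convex (a * ((a ⊔ b)⁻¹ * b)) (N₁.mul_mem ha h1) (b ⊔ c) h3 b ?_ le_sup_left
    calc a * ((a ⊔ b)⁻¹ * b) ≤ (a ⊔ b) * ((a ⊔ b)⁻¹ * b) := mul_le_mul_left le_sup_left _
      _ = b := by group

/-- A criterion for a quotient `G ⧸ N₀` to lie in a product of two varieties. -/
theorem inProduct_quotient {N₀ N₁ : Subgroup G} (h₀ : IsLIdeal N₀) (h₁ : IsLIdeal N₁)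
    (h : N₀ ≤ N₁) (S₁ S₂ : Set Law)
    (hS₁ : ∀ l ∈ S₁, ∀ ρ : ℕ → G, (∀ n, ρ n ∈ N₁) → (l.1.eval ρ)⁻¹ * l.2.eval ρ ∈ N₀)
    (hS₂ : ∀ l ∈ S₂, ∀ ρ : ℕ → G, (l.1.eval ρ)⁻¹ * l.2.eval ρ ∈ N₁) :
    letI := h₀.normal
    letI := quotientLattice h₀
    letI := quotient_mulLeftMono h₀
    letI := quotient_mulRightMono h₀
    InProduct (G ⧸ N₀) S₁ S₂ := by
  letI := h₀.normal
  letI := quotientLattice h₀
  letI := quotient_mulLeftMono h₀
  letI := quotient_mulRightMono h₀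
  refine ⟨N₁.map (QuotientGroup.mk' N₀), map_isLIdeal h₀ h₁ h, ?_, ?_⟩
  · intro l hl
    rw [satisfies_ideal_iff]
    intro ρ hρ
    choose σ hσ using hρ
    have e : ρ = fun n => (QuotientGroup.mk (σ n) : G ⧸ N₀) := by
      funext n; exact (hσ n).2.symm
    rw [e, eval_quotient h₀, eval_quotient h₀]
    exact QuotientGroup.eq.mpr (hS₁ l hl σ (fun n => (hσ n).1))
  · intro l hl
    rw [satisfies_quotient_iff]
    intro ρ
    choose σ hσ using fun n => QuotientGroup.mk_surjective (ρ n)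
    have e : ρ = fun n => (QuotientGroup.mk (σ n) : G ⧸ N₀) := by
      funext n; exact (hσ n).symm
    rw [e, eval_quotient h₀, eval_quotient h₀]
    exact ⟨_, hS₂ l hl σ, rfl⟩

end Quot

section Reduced

variable {G : ℕ → Type u} [∀ k, Group (G k)] [∀ k, Lattice (G k)]
  [∀ k, MulLeftMono (G k)] [∀ k, MulRightMono (G k)]

instance piMulLeftMono : MulLeftMono (∀ k, G k) :=
  ⟨fun c _ _ hab k => mul_le_mul_right (hab k) (c k)⟩

instance piMulRightMono : MulRightMono (∀ k, G k) :=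
  ⟨fun c _ _ hab k => mul_le_mul_left (hab k) (c k)⟩

omit [∀ k, Lattice (G k)] [∀ k, MulLeftMono (G k)] [∀ k, MulRightMono (G k)] in
/-- The sequences that are eventually trivial. -/
def evTriv (G : ℕ → Type u) [∀ k, Group (G k)] : Subgroup (∀ k, G k) where
  carrier := {f | ∀ᶠ k in Filter.atTop, f k = 1}
  one_mem' := Filter.Eventually.of_forall (fun _ => rfl)
  mul_mem' := by
    intro a b ha hb
    filter_upwards [ha, hb] with k h1 h2
    simp [h1, h2]
  inv_mem' := by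
    intro a ha
    filter_upwards [ha] with k h1
    simp [h1]

theorem evTriv_isLIdeal : IsLIdeal (evTriv G) := by
  refine ⟨⟨?_⟩, ?_, ?_, ?_⟩
  · intro n hn g
    filter_upwards [hn] with k h1
    simp [h1]
  · intro a ha b hb
    filter_upwards [ha, hb] with k h1 h2
    simp [h1, h2]
  · intro a ha b hb
    filter_upwards [ha, hb] with k h1 h2
    simp [h1, h2]
  · intro a ha c hc b hab hbc
    filter_upwards [ha, hc] with k h1 h2
    exact le_antisymm (h2 ▸ hbc k) (h1 ▸ hab k)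

theorem eval_pi (ρ : ℕ → ∀ k, G k) (t : LTerm) (k : ℕ) :
    t.eval ρ k = t.eval (fun n => ρ n k) := by
  induction t with
  | var n => rfl
  | one => rfl
  | mul s t hs ht => simp only [LTerm.eval, Pi.mul_apply, hs, ht]
  | inv s hs => simp only [LTerm.eval, Pi.inv_apply, hs]
  | inf s t hs ht => simp only [LTerm.eval, Pi.inf_apply, hs, ht]
  | sup s t hs ht => simp only [LTerm.eval, Pi.sup_apply, hs, ht]

/-- If the reduced product of the `G k` satisfies a law then so do almost all `G k`. -/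
theorem eventually_satisfies (l : Law)
    (hl : letI := (evTriv_isLIdeal (G := G)).normal
      letI := quotientLattice (evTriv_isLIdeal (G := G))
      Satisfies ((∀ k, G k) ⧸ evTriv G) l) :
    ∀ᶠ k in Filter.atTop, Satisfies (G k) l := by
  rw [satisfies_quotient_iff] at hl
  have key : ∀ k, ∃ ρ : ℕ → G k, l.1.eval ρ = l.2.eval ρ → Satisfies (G k) l := by
    intro k
    by_cases hk : Satisfies (G k) l
    · exact ⟨fun _ => 1, fun _ => hk⟩
    · unfold Satisfies at hk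
      push_neg at hk
      obtain ⟨ρ, hρ⟩ := hk
      exact ⟨ρ, fun h => absurd h hρ⟩
  choose ρ hρ using key
  have := hl (fun n k => ρ k n)
  filter_upwards [this] with k hk
  apply hρ k
  rw [Pi.mul_apply, Pi.inv_apply, eval_pi, eval_pi] at hk
  exact (inv_mul_eq_one.mp hk)

/-- The main abstract criterion. -/
theorem exists_inProduct (S₁ S₂ S : Set Law) (hS : S.Finite)
    (hiff : ∀ (X : Type u) [Group X] [Lattice X] [MulLeftMono X] [MulRightMono X],
      InProduct X S₁ S₂ ↔ Models X S)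
    (N₁ : Subgroup (∀ k, G k)) (h₁ : IsLIdeal N₁) (h : evTriv G ≤ N₁)
    (hS₁ : ∀ l ∈ S₁, ∀ ρ : ℕ → ∀ k, G k, (∀ n, ρ n ∈ N₁) →
      (l.1.eval ρ)⁻¹ * l.2.eval ρ ∈ evTriv G)
    (hS₂ : ∀ l ∈ S₂, ∀ ρ : ℕ → ∀ k, G k, (l.1.eval ρ)⁻¹ * l.2.eval ρ ∈ N₁) :
    ∃ k, InProduct (G k) S₁ S₂ := by
  letI := (evTriv_isLIdeal (G := G)).normal
  letI := quotientLattice (evTriv_isLIdeal (G := G))
  letI := quotient_mulLeftMono (evTriv_isLIdeal (G := G))
  letI := quotient_mulRightMono (evTriv_isLIdeal (G := G))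
  have h2 : Models ((∀ k, G k) ⧸ evTriv G) S :=
    (hiff _).mp (inProduct_quotient evTriv_isLIdeal h₁ h S₁ S₂ hS₁ hS₂)
  have h3 : ∀ᶠ k in Filter.atTop, ∀ l ∈ S, Satisfies (G k) l := by
    rw [Set.Finite.eventually_all hS] 
    intro l hl
    exact eventually_satisfies l (h2 l hl)
  obtain ⟨k, hk⟩ := h3.exists
  exact ⟨k, (hiff (G k)).mpr hk⟩

end Reduced

end Pool.Agent.Helper2.LG
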